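import Pool.Agent.TH45.Carlsson2

set_option autoImplicit false
set_option linter.unusedSectionVars false

open MvPolynomial

namespace Pool.Agent.TH45.Carlsson

variable (k : Type) [Field k] (d : ℕ)

/-- The ideal of squares of the variables. -/
noncomputable abbrev sqI : Ideal (MvPolynomial (Fin d) k) :=
  Ideal.span (Set.range (fun i : Fin d => (MvPolynomial.X i : MvPolynomial (Fin d) k) ^ 2))

/-- The truncated polynomial ring. -/
noncomputable abbrev TR := MvPolynomial (Fin d) k ⧸ sqI k d

/-- The class of a variable. -/
noncomputable def xv (i : Fin d) : TR k d := Ideal.Quotient.mk _ (MvPolynomial.X i)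

theorem xv_sq (i : Fin d) : xv k d i * xv k d i = 0 := by
  rw [xv, ← map_mul, ← pow_two, Ideal.Quotient.eq_zero_iff_mem]
  exact Ideal.subset_span ⟨i, rfl⟩

variable {k d} in
/-- The universal property. -/
noncomputable def lft {B : Type} [CommRing B] [Algebra k B] (f : Fin d → B)
    (hf : ∀ i, f i * f i = 0) : TR k d →ₐ[k] B :=
  Ideal.Quotient.liftₐ (sqI k d) (MvPolynomial.aeval f) (by
    intro a ha
    have : sqI k d ≤ RingHom.ker (MvPolynomial.aeval f : MvPolynomial (Fin d) k →ₐ[k] B) := by
      rw [Ideal.span_le]
      rintro _ ⟨i, rfl⟩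
      show (MvPolynomial.aeval f) (X i ^ 2) = 0
      rw [map_pow, aeval_X, pow_two, hf]
    exact RingHom.mem_ker.mp (this ha))

variable {k d} in
theorem lft_xv {B : Type} [CommRing B] [Algebra k B] (f : Fin d → B)
    (hf : ∀ i, f i * f i = 0) (i : Fin d) : lft f hf (xv k d i) = f i := by
  show (MvPolynomial.aeval f) (X i) = f i
  exact aeval_X f i

variable {k d} in
theorem hom_ext' {B : Type} [CommRing B] [Algebra k B] {f g : TR k d →ₐ[k] B}
    (h : ∀ i, f (xv k d i) = g (xv k d i)) : f = g := by
  apply Ideal.Quotient.algHom_ext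
  apply MvPolynomial.algHom_ext
  intro i
  exact h i

/-- Setting the variables in `S` to zero. -/
noncomputable def kill (S : Finset (Fin d)) : TR k d →ₐ[k] TR k d :=
  lft (fun j => if j ∈ S then 0 else xv k d j) (by
    intro i
    by_cases h : i ∈ S
    · simp [h]
    · simp only [h, if_false]
      exact xv_sq k d i)

theorem kill_xv (S : Finset (Fin d)) (j : Fin d) :
    kill k d S (xv k d j) = if j ∈ S then 0 else xv k d j := by
  rw [kill, lft_xv]

theorem kill_empty : kill k d ∅ = AlgHom.id k _ := by
  apply hom_ext'
  intro i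
  rw [kill_xv]
  simp

theorem kill_insert (i : Fin d) (S : Finset (Fin d)) :
    kill k d (insert i S) = (kill k d {i}).comp (kill k d S) := by
  apply hom_ext'
  intro j
  rw [AlgHom.comp_apply, kill_xv, kill_xv]
  by_cases h : j ∈ S
  · simp [h]
  · simp only [h, if_false, kill_xv, Finset.mem_insert, Finset.mem_singleton, or_false]

/-- The first order expansion in the variable `i`. -/
noncomputable def rho (i : Fin d) : TR k d →ₐ[k] DualNumber (TR k d) :=
  lft (fun j => if j = i then DualNumber.eps else TrivSqZeroExt.inl (xv k d j)) (by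
    intro j
    by_cases h : j = i
    · simp [h]
    · simp only [h, if_false]
      rw [← TrivSqZeroExt.inl_mul, xv_sq, TrivSqZeroExt.inl_zero])

theorem rho_xv (i j : Fin d) :
    rho k d i (xv k d j) = if j = i then DualNumber.eps else TrivSqZeroExt.inl (xv k d j) := by
  rw [rho, lft_xv]

/-- Substituting the variable `i` back. -/
noncomputable def back (i : Fin d) : DualNumber (TR k d) →ₐ[k] TR k d :=
  DualNumber.lift ⟨(AlgHom.id k (TR k d), xv k d i), xv_sq k d i, fun _ => Commute.all _ _⟩

theorem back_rho (i : Fin d) (r : TR k d) :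
    r = (rho k d i r).fst + (rho k d i r).snd * xv k d i := by
  have h : (back k d i).comp (rho k d i) = AlgHom.id k (TR k d) := by
    apply hom_ext'
    intro j
    rw [AlgHom.comp_apply, rho_xv]
    by_cases hj : j = i
    · subst hj
      rw [if_pos rfl, back, DualNumber.lift_apply_eps]
      rfl
    · rw [if_neg hj, back, DualNumber.lift_apply_inl]
  have := DFunLike.congr_fun h r
  rw [AlgHom.comp_apply, back, DualNumber.lift_apply_apply] at this
  exact this.symm

theorem fst_rho (i : Fin d) (r : TR k d) : (rho k d i r).fst = kill k d {i} r := by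
  have h : (TrivSqZeroExt.fstHom k (TR k d) (TR k d)).comp (rho k d i) = kill k d {i} := by
    apply hom_ext'
    intro j
    rw [AlgHom.comp_apply, rho_xv, kill_xv]
    by_cases hj : j = i
    · simp [hj]
    · simp [hj]
  exact DFunLike.congr_fun h r

theorem isConj_kill_one (h2 : (2 : TR k d) = 0) {n : ℕ} (i : Fin d)
    (D : Matrix (Fin n) (Fin n) (TR k d)) (hD : D * D = 0) :
    IsConj (del (D.map (kill k d {i}))) (del D) := by
  refine isConj_del h2 (xv k d i) (xv_sq k d i) D _ (D.map (fun r => (rho k d i r).snd)) ?_ ?_
  · ext a b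
    rw [Matrix.add_apply, Matrix.smul_apply, Matrix.map_apply, Matrix.map_apply, smul_eq_mul,
      mul_comm (xv k d i), ← fst_rho]
    exact back_rho k d i (D a b)
  · ext a b
    have h := congrFun (congrFun hD a) b
    rw [Matrix.mul_apply, Matrix.zero_apply] at h
    have h' := congrArg (fun r => (rho k d i r).snd) h
    simp only [map_sum, map_mul, map_zero, TrivSqZeroExt.snd_sum, DualNumber.snd_mul,
      TrivSqZeroExt.snd_zero] at h'
    rw [Matrix.add_apply, Matrix.mul_apply, Matrix.mul_apply, Matrix.zero_apply,
      ← Finset.sum_add_distrib]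
    simpa only [Matrix.map_apply, fst_rho] using h'

theorem map_sq_zero {n : ℕ} (f : TR k d →ₐ[k] TR k d) (D : Matrix (Fin n) (Fin n) (TR k d))
    (hD : D * D = 0) : D.map f * D.map f = 0 := by
  have : (D * D).map f = D.map f * D.map f := Matrix.map_mul (f := f.toRingHom)
  rw [← this, hD]
  ext a b
  simp

theorem isConj_kill (h2 : (2 : TR k d) = 0) {n : ℕ} (S : Finset (Fin d))
    (D : Matrix (Fin n) (Fin n) (TR k d)) (hD : D * D = 0) :
    IsConj (del (D.map (kill k d S))) (del D) := by
  classical
  induction S using Finset.induction_on with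
  | empty =>
    rw [kill_empty]
    have : D.map (AlgHom.id k (TR k d)) = D := by
      ext a b
      rfl
    rw [this]
  | insert i S _ ih =>
    have h1 := isConj_kill_one k d h2 i (D.map (kill k d S)) (map_sq_zero k d _ D hD)
    have : D.map (kill k d (insert i S)) = (D.map (kill k d S)).map (kill k d {i}) := by
      rw [kill_insert]
      ext a b
      rfl
    rw [this]
    exact h1.trans ih

theorem kill_univ_nilp (r : TR k d) (hr : IsNilpotent r) : kill k d Finset.univ r = 0 := by
  have h : kill k d Finset.univ =
      (Algebra.ofId k (TR k d)).comp (lft (k := k) (d := d) (fun _ => (0 : k)) (by simp)) := by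
    apply hom_ext'
    intro j
    rw [AlgHom.comp_apply, kill_xv, lft_xv]
    simp
  rw [h, AlgHom.comp_apply]
  have h0 : IsNilpotent (lft (k := k) (d := d) (fun _ => (0 : k)) (by simp) r) := hr.map _
  rw [h0.eq_zero, map_zero]

theorem isConj_sig (h2 : (2 : TR k d) = 0) {n : ℕ}
    (D : Matrix (Fin n) (Fin n) (TR k d)) (hD : D * D = 0) (hn : ∀ a b, IsNilpotent (D a b)) :
    IsConj (1 + swp (TR k d) n) (del D) := by
  have h := isConj_kill k d h2 Finset.univ D hD
  have : D.map (kill k d Finset.univ) = 0 := by
    ext a b
    rw [Matrix.map_apply, kill_univ_nilp k d _ (hn a b), Matrix.zero_apply]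
  rw [this] at h
  have e : del (0 : Matrix (Fin n) (Fin n) (TR k d)) = 1 + swp (TR k d) n := by
    have h1 : Matrix.kronecker (1 : Matrix (Fin n) (Fin n) (TR k d))
        (0 : Matrix (Fin n) (Fin n) (TR k d)) = 0 :=
      Matrix.kronecker_zero _
    rw [del, kzero, h1, zero_add, zero_add]
  rwa [e] at h

/-- Squarefree coefficients. -/
noncomputable def coeffs : MvPolynomial (Fin d) k →ₗ[k] (Finset (Fin d) → k) :=
  LinearMap.pi fun S => MvPolynomial.lcoeff k (Finsupp.indicator S fun _ _ => 1)

theorem ker_coeffs : LinearMap.ker (coeffs k d) = (sqI k d).restrictScalars k := by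
  classical
  have hs : sqI k d = Ideal.span ((fun s => monomial s (1 : k)) ''
      (Set.range fun i : Fin d => Finsupp.single i 2)) := by
    rw [sqI]
    congr 1
    rw [← Set.range_comp]
    congr 1
    ext1 i
    simp [X_pow_eq_monomial]
  ext p
  rw [LinearMap.mem_ker, Submodule.restrictScalars_mem, hs, mem_ideal_span_monomial_image]
  constructor
  · intro h m hm
    by_contra hcon
    push Not at hcon
    have h1 : ∀ i, m i ≤ 1 := by
      intro i
      by_contra hi
      apply hcon (Finsupp.single i 2) ⟨i, rfl⟩
      rw [Finsupp.single_le_iff]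
      omega
    have h2 : m = Finsupp.indicator m.support (fun _ _ => 1) := by
      ext i
      rw [Finsupp.indicator_apply]
      by_cases hi : i ∈ m.support
      · rw [dif_pos hi]
        have := Finsupp.mem_support_iff.mp hi
        have := h1 i
        omega
      · rw [dif_neg hi]
        exact Finsupp.notMem_support_iff.mp hi
    have h3 := congrFun h m.support
    simp only [coeffs, LinearMap.pi_apply, MvPolynomial.lcoeff_apply, Pi.zero_apply] at h3
    rw [← h2] at h3
    exact (MvPolynomial.mem_support_iff.mp hm) h3
  · intro h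
    ext S
    simp only [coeffs, LinearMap.pi_apply, MvPolynomial.lcoeff_apply, Pi.zero_apply]
    by_contra hc
    obtain ⟨_, ⟨i, rfl⟩, hi⟩ := h _ (MvPolynomial.mem_support_iff.mpr hc)
    have := hi i
    rw [Finsupp.single_eq_same, Finsupp.indicator_apply] at this
    split_ifs at this <;> omega

theorem coeffs_surj : Function.Surjective (coeffs k d) := by
  classical
  intro f
  refine ⟨∑ S : Finset (Fin d), monomial (Finsupp.indicator S fun _ _ => 1) (f S), ?_⟩
  ext S
  simp only [coeffs, LinearMap.pi_apply, MvPolynomial.lcoeff_apply, map_sum]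
  rw [Finset.sum_eq_single S]
  · simp
  · intro T _ hT
    rw [coeff_monomial, if_neg]
    intro e
    apply hT
    ext i
    have := DFunLike.congr_fun e i
    rw [Finsupp.indicator_apply, Finsupp.indicator_apply] at this
    by_cases h1 : i ∈ T <;> by_cases h2 : i ∈ S <;> simp_all
  · intro h
    exact absurd (Finset.mem_univ _) h

/-- The truncated polynomial ring as a vector space. -/
noncomputable def trEquiv : TR k d ≃ₗ[k] (Finset (Fin d) → k) :=
  ((Submodule.Quotient.restrictScalarsEquiv k (sqI k d)).symm.trans
    (Submodule.quotEquivOfEq _ _ (ker_coeffs k d).symm)).trans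
    ((coeffs k d).quotKerEquivOfSurjective (coeffs_surj k d))

theorem finite_TR : Module.Finite k (TR k d) :=
  Module.Finite.equiv (trEquiv k d).symm

theorem finrank_TR : Module.finrank k (TR k d) = 2 ^ d := by
  rw [(trEquiv k d).finrank_eq]
  simp

theorem main [CharP k 2] (n : ℕ) (D : Matrix (Fin n) (Fin n) (TR k d)) (hD : D * D = 0)
    (deg : Fin n → ℕ) (hdeg : ∀ i j, D i j ≠ 0 → deg j = deg i + 1)
    (hn : ∀ i j, IsNilpotent (D i j)) :
    2 ^ d * n + Module.finrank k (LinearMap.range (lin k
      (Matrix.kronecker D 1 + Matrix.kronecker 1 D))) ≤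
    Module.finrank k (LinearMap.ker (lin k (Matrix.kronecker D 1 + Matrix.kronecker 1 D))) := by
  have h2 : (2 : TR k d) = 0 := by
    have : (2 : k) = 0 := CharP.cast_eq_zero k 2
    have h := congrArg (algebraMap k (TR k d)) this
    rw [map_ofNat, map_zero] at h
    exact h
  have := finite_TR k d
  have hconj := isConj_sig k d h2 D hD hn
  have hrk := rk_conj_eq (k := k) hconj
  have hsig := rk_sig (k := k) (A := TR k d) (n := n) h2
  have e1 := rk_add_ker (k := k) (1 + swp (TR k d) n)
  have e2 := rk_add_ker (k := k) (del D)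
  have e3 := rk_add_ker (k := k) (Matrix.kronecker D 1 + Matrix.kronecker 1 D)
  have hle := ker_le (k := k) (fun p : Fin n × Fin n => deg p.1 + deg p.2)
    (Matrix.kronecker D 1 + Matrix.kronecker 1 D) (1 + swp (TR k d) n) (by
      rintro ⟨a1, a2⟩ ⟨b1, b2⟩ h
      have h' : D a1 b1 * (1 : Matrix (Fin n) (Fin n) (TR k d)) a2 b2 +
        (1 : Matrix (Fin n) (Fin n) (TR k d)) a1 b1 * D a2 b2 ≠ 0 := h
      show deg b1 + deg b2 = deg a1 + deg a2 + 1
      by_cases c1 : a2 = b2
      · by_cases c2 : a1 = b1
        · subst c1 c2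
          rw [Matrix.one_apply_eq, Matrix.one_apply_eq, mul_one, one_mul] at h'
          by_cases c3 : D a1 a1 = 0
          · by_cases c4 : D a2 a2 = 0
            · rw [c3, c4, add_zero] at h'
              exact absurd rfl h'
            · have := hdeg _ _ c4
              omega
          · have := hdeg _ _ c3
            omega
        · subst c1
          rw [Matrix.one_apply_ne c2, zero_mul, add_zero, Matrix.one_apply_eq, mul_one] at h'
          have := hdeg _ _ h'
          omega
      · rw [Matrix.one_apply_ne c1, mul_zero, zero_add] at h'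
        by_cases c2 : a1 = b1
        · subst c2
          rw [Matrix.one_apply_eq, one_mul] at h'
          have := hdeg _ _ h'
          omega
        · rw [Matrix.one_apply_ne c2, zero_mul] at h'
          exact absurd rfl h') (by
      rintro ⟨a1, a2⟩ ⟨b1, b2⟩ h
      show deg b1 + deg b2 = deg a1 + deg a2
      by_contra hcon
      apply h
      rw [Matrix.add_apply, Matrix.one_apply_ne, zero_add]
      · show (if a1 = b2 ∧ a2 = b1 then (1 : TR k d) else 0) = 0
        rw [if_neg]
        rintro ⟨e, e'⟩
        subst e e'
        apply hcon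
        omega
      · intro e
        rw [Prod.mk.injEq] at e
        obtain ⟨e, e'⟩ := e
        subst e e'
        exact hcon rfl)
  have hdel : (Matrix.kronecker D 1 + Matrix.kronecker 1 D) + (1 + swp (TR k d) n) = del D := rfl
  rw [hdel] at hle
  rw [finrank_TR] at hsig
  have : 2 ^ d * n = n * 2 ^ d := mul_comm _ _
  omega

end Pool.Agent.TH45.Carlsson
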