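import Mathlib

set_option autoImplicit false

open Matrix

namespace Pool.Agent.TH45.Carlsson

section Conj

variable {A : Type*} [CommRing A] {n : ℕ}

/-- The swap permutation matrix on pairs. -/
def swp (A : Type*) [CommRing A] (n : ℕ) : Matrix (Fin n × Fin n) (Fin n × Fin n) A :=
  Matrix.of fun p q => if p.1 = q.2 ∧ p.2 = q.1 then 1 else 0

/-- Left multiplication by the swap permutes rows. -/
theorem swp_mul_apply (M : Matrix (Fin n × Fin n) (Fin n × Fin n) A) (p q : Fin n × Fin n) :
    (swp A n * M) p q = M p.swap q := by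
  rw [Matrix.mul_apply, Finset.sum_eq_single p.swap]
  · simp [swp]
  · intro b _ hb
    have : ¬ (p.1 = b.2 ∧ p.2 = b.1) := by
      rintro ⟨h1, h2⟩
      apply hb
      ext <;> simp [h1, h2]
    simp [swp, this]
  · intro h
    exact absurd (Finset.mem_univ _) h

theorem mul_swp_apply (M : Matrix (Fin n × Fin n) (Fin n × Fin n) A) (p q : Fin n × Fin n) :
    (M * swp A n) p q = M p q.swap := by
  rw [Matrix.mul_apply, Finset.sum_eq_single q.swap]
  · simp [swp]
  · intro b _ hb
    have : ¬ (b.1 = q.2 ∧ b.2 = q.1) := by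
      rintro ⟨h1, h2⟩
      apply hb
      ext <;> simp [h1, h2]
    simp [swp, this]
  · intro h
    exact absurd (Finset.mem_univ _) h

theorem swp_mul_swp : swp A n * swp A n = 1 := by
  ext p q
  rw [swp_mul_apply]
  by_cases h : p = q
  · subst h
    simp [swp]
  · rw [Matrix.one_apply_ne h]
    have : ¬ (p.swap.1 = q.2 ∧ p.swap.2 = q.1) := by
      rintro ⟨h1, h2⟩
      apply h
      ext <;> simp_all
    simp only [swp, Matrix.of_apply, if_neg this]

theorem kmul (B C E F : Matrix (Fin n) (Fin n) A) :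
    Matrix.kronecker B C * Matrix.kronecker E F = Matrix.kronecker (B * E) (C * F) :=
  (Matrix.mul_kronecker_mul B E C F).symm

theorem kadd1 (B C E : Matrix (Fin n) (Fin n) A) :
    Matrix.kronecker B E + Matrix.kronecker C E = Matrix.kronecker (B + C) E :=
  (Matrix.add_kronecker B C E).symm

theorem kadd2 (B C E : Matrix (Fin n) (Fin n) A) :
    Matrix.kronecker E B + Matrix.kronecker E C = Matrix.kronecker E (B + C) :=
  (Matrix.kronecker_add E B C).symm

theorem ksmul1 (x : A) (B C : Matrix (Fin n) (Fin n) A) :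
    Matrix.kronecker (x • B) C = x • Matrix.kronecker B C :=
  Matrix.smul_kronecker x B C

theorem ksmul2 (x : A) (B C : Matrix (Fin n) (Fin n) A) :
    Matrix.kronecker B (x • C) = x • Matrix.kronecker B C :=
  Matrix.kronecker_smul x B C

theorem kzero (B : Matrix (Fin n) (Fin n) A) :
    Matrix.kronecker (0 : Matrix (Fin n) (Fin n) A) B = 0 :=
  Matrix.zero_kronecker B

theorem swp_mul_kron (B C : Matrix (Fin n) (Fin n) A) :
    swp A n * Matrix.kronecker B C = Matrix.kronecker C B * swp A n := by
  ext p q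
  rw [swp_mul_apply, mul_swp_apply]
  simp [mul_comm]

/-- The total differential on the tensor square plus one plus the swap. -/
def del (D : Matrix (Fin n) (Fin n) A) : Matrix (Fin n × Fin n) (Fin n × Fin n) A :=
  Matrix.kronecker D 1 + Matrix.kronecker 1 D + (1 + swp A n)

theorem isConj_del (h2 : (2 : A) = 0) (x : A) (hx : x * x = 0)
    (D D0 D1 : Matrix (Fin n) (Fin n) A) (hD : D = D0 + x • D1)
    (hc : D0 * D1 + D1 * D0 = 0) : IsConj (del D0) (del D) := by
  have two : ∀ M : Matrix (Fin n × Fin n) (Fin n × Fin n) A, M + M = 0 := by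
    intro M
    ext i j
    rw [Matrix.add_apply, Matrix.zero_apply, ← two_mul, h2, zero_mul]
  set T := swp A n with hT
  set h : Matrix (Fin n × Fin n) (Fin n × Fin n) A := Matrix.kronecker D1 1 * T with hh
  set U : Matrix (Fin n × Fin n) (Fin n × Fin n) A := 1 + x • h with hU
  have TT : T * T = 1 := swp_mul_swp
  have UU : U * U = 1 := by
    have : (x • h) * (x • h) = 0 := by
      rw [Matrix.smul_mul, Matrix.mul_smul, smul_smul, hx, zero_smul]
    rw [hU, mul_add, add_mul, add_mul, this, mul_one, one_mul, mul_one, add_zero, add_assoc, two,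
      add_zero]
  have key : h * del D0 + del D0 * h = Matrix.kronecker D1 1 + Matrix.kronecker 1 D1 := by
    have a1 : h * Matrix.kronecker D0 1 = Matrix.kronecker D1 D0 * T := by
      rw [hh, Matrix.mul_assoc, hT, swp_mul_kron, ← Matrix.mul_assoc, kmul,
        Matrix.mul_one, Matrix.one_mul]
    have a2 : h * Matrix.kronecker 1 D0 = Matrix.kronecker (D1 * D0) 1 * T := by
      rw [hh, Matrix.mul_assoc, hT, swp_mul_kron, ← Matrix.mul_assoc, kmul,
        Matrix.mul_one]
    have a3 : Matrix.kronecker D0 1 * h = Matrix.kronecker (D0 * D1) 1 * T := by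
      rw [hh, ← Matrix.mul_assoc, kmul, Matrix.mul_one]
    have a4 : Matrix.kronecker 1 D0 * h = Matrix.kronecker D1 D0 * T := by
      rw [hh, ← Matrix.mul_assoc, kmul, Matrix.mul_one, Matrix.one_mul]
    have a5 : h * T = Matrix.kronecker D1 1 := by
      rw [hh, Matrix.mul_assoc, TT, Matrix.mul_one]
    have a6 : T * h = Matrix.kronecker 1 D1 := by
      rw [hh, ← Matrix.mul_assoc, hT, swp_mul_kron, Matrix.mul_assoc, ← hT, TT, Matrix.mul_one]
    have a7 : Matrix.kronecker (D1 * D0) 1 * T + Matrix.kronecker (D0 * D1) 1 * T = 0 := by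
      rw [← Matrix.add_mul, kadd1, add_comm (D1 * D0), hc, kzero, Matrix.zero_mul]
    have e1 : h * del D0 = Matrix.kronecker D1 D0 * T + Matrix.kronecker (D1 * D0) 1 * T +
        (h + Matrix.kronecker D1 1) := by
      rw [del, Matrix.mul_add, Matrix.mul_add, a1, a2, Matrix.mul_add, ← hT, a5, Matrix.mul_one]
    have e2 : del D0 * h = Matrix.kronecker (D0 * D1) 1 * T + Matrix.kronecker D1 D0 * T +
        (h + Matrix.kronecker 1 D1) := by
      rw [del, Matrix.add_mul, Matrix.add_mul, a3, a4, Matrix.add_mul, ← hT, a6, Matrix.one_mul]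
    rw [e1, e2]
    have r1 := two (Matrix.kronecker D1 D0 * T)
    have r2 := two h
    calc _ = (Matrix.kronecker D1 D0 * T + Matrix.kronecker D1 D0 * T) +
          (Matrix.kronecker (D1 * D0) 1 * T + Matrix.kronecker (D0 * D1) 1 * T) + (h + h) +
          (Matrix.kronecker D1 1 + Matrix.kronecker 1 D1) := by abel
      _ = _ := by rw [r1, r2, a7]; simp
  have conj : U * del D0 * U = del D := by
    have s1 : U * del D0 * U = del D0 + x • (h * del D0 + del D0 * h) := by
      rw [hU, Matrix.add_mul, Matrix.one_mul, Matrix.mul_add, Matrix.mul_one, Matrix.add_mul,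
        Matrix.smul_mul, Matrix.mul_smul, Matrix.smul_mul, Matrix.mul_smul, smul_smul, hx,
        zero_smul, add_zero, smul_add]
      abel
    rw [s1, key, hD, del, del]
    have k1 : Matrix.kronecker (D0 + x • D1) (1 : Matrix (Fin n) (Fin n) A) =
        Matrix.kronecker D0 1 + x • Matrix.kronecker D1 1 := by
      rw [← ksmul1, kadd1]
    have k2 : Matrix.kronecker (1 : Matrix (Fin n) (Fin n) A) (D0 + x • D1) =
        Matrix.kronecker 1 D0 + x • Matrix.kronecker 1 D1 := by
      rw [← ksmul2, kadd2]
    rw [k1, k2, smul_add]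
    abel
  refine ⟨⟨U, U, UU, UU⟩, ?_⟩
  show U * del D0 = del D * U
  rw [← conj, Matrix.mul_assoc _ U U, UU, Matrix.mul_one]

end Conj

end Pool.Agent.TH45.Carlsson
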