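import Pool.Agent.TH45.Carlsson1

set_option autoImplicit false
set_option linter.unusedSectionVars false

open Matrix

namespace Pool.Agent.TH45.Carlsson

section Rank

variable {k : Type*} [Field k] {A : Type*} [CommRing A] [Algebra k A] [Module.Finite k A]
  {ι : Type*} [Fintype ι] [DecidableEq ι]

/-- A square matrix as a linear map over the ground field. -/
noncomputable def lin (k : Type*) [Field k] {A : Type*} [CommRing A] [Algebra k A]
    {ι : Type*} [Fintype ι] (M : Matrix ι ι A) : (ι → A) →ₗ[k] (ι → A) :=
  (Matrix.mulVecLin M).restrictScalars k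

theorem lin_apply (M : Matrix ι ι A) (v : ι → A) : lin k M v = M.mulVec v := rfl

theorem lin_mul (M N : Matrix ι ι A) : lin k (M * N) = (lin k M).comp (lin k N) := by
  apply LinearMap.ext
  intro v
  show (M * N).mulVec v = M.mulVec (N.mulVec v)
  rw [Matrix.mulVec_mulVec]

theorem rk_mul_left (M N : Matrix ι ι A) :
    Module.finrank k (LinearMap.range (lin k (M * N))) ≤
      Module.finrank k (LinearMap.range (lin k M)) := by
  rw [lin_mul]
  exact Submodule.finrank_mono (LinearMap.range_comp_le_range _ _)

theorem rk_mul_right (M N : Matrix ι ι A) :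
    Module.finrank k (LinearMap.range (lin k (M * N))) ≤
      Module.finrank k (LinearMap.range (lin k N)) := by
  rw [lin_mul, LinearMap.range_comp]
  exact Submodule.finrank_map_le _ _

theorem rk_conj {M N : Matrix ι ι A} (h : IsConj M N) :
    Module.finrank k (LinearMap.range (lin k N)) ≤
      Module.finrank k (LinearMap.range (lin k M)) := by
  obtain ⟨c, hc⟩ := h
  have : N = (c : Matrix ι ι A) * M * ((c⁻¹ : (Matrix ι ι A)ˣ) : Matrix ι ι A) := by
    rw [hc.eq, Matrix.mul_assoc]
    simp
  rw [this]
  exact (rk_mul_left _ _).trans (rk_mul_right _ _)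

theorem rk_conj_eq {M N : Matrix ι ι A} (h : IsConj M N) :
    Module.finrank k (LinearMap.range (lin k N)) =
      Module.finrank k (LinearMap.range (lin k M)) :=
  le_antisymm (rk_conj h) (rk_conj h.symm)

theorem rk_add_ker (M : Matrix ι ι A) :
    Module.finrank k (LinearMap.range (lin k M)) + Module.finrank k (LinearMap.ker (lin k M)) =
      Module.finrank k (ι → A) :=
  LinearMap.finrank_range_add_finrank_ker _

end Rank

section Swap

variable {k : Type*} [Field k] {A : Type*} [CommRing A] [Algebra k A] [Module.Finite k A] {n : ℕ}

theorem swp_mulVec (v : Fin n × Fin n → A) (p : Fin n × Fin n) :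
    (swp A n).mulVec v p = v p.swap := by
  rw [Matrix.mulVec, dotProduct, Finset.sum_eq_single p.swap]
  · simp [swp]
  · intro b _ hb
    have : ¬ (p.1 = b.2 ∧ p.2 = b.1) := by
      rintro ⟨h1, h2⟩
      apply hb
      ext <;> simp [h1, h2]
    simp [swp, this]
  · intro h
    exact absurd (Finset.mem_univ _) h

theorem sig_mulVec (v : Fin n × Fin n → A) (p : Fin n × Fin n) :
    (1 + swp A n).mulVec v p = v p + v p.swap := by
  rw [Matrix.add_mulVec, Matrix.one_mulVec, Pi.add_apply, swp_mulVec]

theorem rk_sig (h2 : (2 : A) = 0) :
    Module.finrank k (LinearMap.range (lin k (1 + swp A n))) + n * Module.finrank k A ≤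
      Module.finrank k (LinearMap.ker (lin k (1 + swp A n))) := by
  classical
  have two : ∀ a : A, a + a = 0 := by
    intro a
    rw [← two_mul, h2, zero_mul]
  -- the linear map from range times diagonal vectors to the kernel
  let diag : (Fin n → A) →ₗ[k] (Fin n × Fin n → A) :=
    { toFun := fun w p => if p.1 = p.2 then w p.1 else 0
      map_add' := by
        intro w w'
        ext p
        by_cases h : p.1 = p.2 <;> simp [h]
      map_smul' := by
        intro c w
        ext p
        by_cases h : p.1 = p.2 <;> simp [h] }
  have hdiag : ∀ w p, diag w p = if p.1 = p.2 then w p.1 else 0 := fun _ _ => rfl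
  have hdk : ∀ w, diag w ∈ LinearMap.ker (lin k (1 + swp A n)) := by
    intro w
    rw [LinearMap.mem_ker, lin_apply]
    ext p
    rw [sig_mulVec, hdiag, hdiag]
    rcases p with ⟨a, b⟩
    by_cases h : a = b
    · subst h
      simp [two]
    · have h' : ¬ b = a := fun e => h e.symm
      simp [h, h']
  have hrk : ∀ v ∈ LinearMap.range (lin k (1 + swp A n)),
      v ∈ LinearMap.ker (lin k (1 + swp A n)) := by
    rintro _ ⟨v, rfl⟩
    rw [LinearMap.mem_ker, lin_apply, lin_apply]
    ext p
    rw [sig_mulVec, sig_mulVec, sig_mulVec, Prod.swap_swap, add_comm (v p.swap), two]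
    rfl
  have hr0 : ∀ v ∈ LinearMap.range (lin k (1 + swp A n)), ∀ a, v (a, a) = 0 := by
    rintro _ ⟨v, rfl⟩ a
    rw [lin_apply, sig_mulVec]
    exact two _
  let f : (LinearMap.range (lin k (1 + swp A n)) × (Fin n → A)) →ₗ[k]
      LinearMap.ker (lin k (1 + swp A n)) :=
    LinearMap.codRestrict _
      ((LinearMap.range (lin k (1 + swp A n))).subtype.comp (LinearMap.fst k _ _) +
        diag.comp (LinearMap.snd k _ _))
      (by
        intro x
        exact Submodule.add_mem _ (hrk _ x.1.2) (hdk _))
  have hf : Function.Injective f := by
    rw [← LinearMap.ker_eq_bot, LinearMap.ker_eq_bot']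
    rintro ⟨v, w⟩ h
    have h1 : (v : Fin n × Fin n → A) + diag w = 0 := by
      have := congrArg Subtype.val h
      exact this
    have hw : w = 0 := by
      ext a
      have := congrFun h1 (a, a)
      rw [Pi.add_apply, hr0 _ v.2, hdiag] at this
      simpa using this
    subst hw
    have : (v : Fin n × Fin n → A) = 0 := by
      simpa using h1
    ext1
    · exact Subtype.ext this
    · rfl
  have := LinearMap.finrank_le_finrank_of_injective hf
  rw [Module.finrank_prod] at this
  have hp : Module.finrank k (Fin n → A) = n * Module.finrank k A := by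
    rw [Module.finrank_pi_fintype]
    simp
  rw [hp] at this
  exact this

end Swap

section Semi

variable {k : Type*} [Field k] {A : Type*} [CommRing A] [Algebra k A] [Module.Finite k A]
  {ι : Type*} [Fintype ι] [DecidableEq ι]

/-- Vectors supported in degree at least `p`. -/
def filt (k : Type*) [Field k] (A : Type*) [CommRing A] [Algebra k A] {ι : Type*}
    (w : ι → ℕ) (p : ℕ) : Submodule k (ι → A) where
  carrier := {v | ∀ a, w a < p → v a = 0}
  add_mem' := by
    intro v v' h h' a ha
    rw [Pi.add_apply, h a ha, h' a ha, add_zero]
  zero_mem' := by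
    intro a _
    rfl
  smul_mem' := by
    intro c v h a ha
    rw [Pi.smul_apply, h a ha, smul_zero]

/-- The degree `p` component. -/
def comp (k : Type*) [Field k] (A : Type*) [CommRing A] [Algebra k A] {ι : Type*}
    (w : ι → ℕ) (p : ℕ) : (ι → A) →ₗ[k] (ι → A) where
  toFun := fun v a => if w a = p then v a else 0
  map_add' := by
    intro v v'
    ext a
    by_cases h : w a = p <;> simp [h]
  map_smul' := by
    intro c v
    ext a
    by_cases h : w a = p <;> simp [h]

theorem comp_apply (w : ι → ℕ) (p : ℕ) (v : ι → A) (a : ι) :
    comp k A w p v a = if w a = p then v a else 0 := rfl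

/-- Lowest degree components: the kernel of `B + S` is no larger than the kernel of `B` when `B`
lowers the degree by one and `S` preserves it. -/
theorem ker_le (w : ι → ℕ) (B S : Matrix ι ι A)
    (hB : ∀ a b, B a b ≠ 0 → w b = w a + 1) (hS : ∀ a b, S a b ≠ 0 → w b = w a) :
    Module.finrank k (LinearMap.ker (lin k (B + S))) ≤
      Module.finrank k (LinearMap.ker (lin k B)) := by
  classical
  -- homogeneity of B
  have hBc : ∀ (v : ι → A) (p : ℕ) (a : ι),
      B.mulVec (comp k A w (p + 1) v) a = if w a = p then B.mulVec v a else 0 := by
    intro v p a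
    rw [Matrix.mulVec, Matrix.mulVec, dotProduct, dotProduct]
    split_ifs with h
    · apply Finset.sum_congr rfl
      intro b _
      by_cases hb : B a b = 0
      · simp [hb]
      · rw [comp_apply, if_pos (by rw [hB a b hb, h])]
    · apply Finset.sum_eq_zero
      intro b _
      by_cases hb : B a b = 0
      · simp [hb]
      · rw [comp_apply, if_neg, mul_zero]
        rw [hB a b hb]
        intro e
        exact h (by omega)
  have hBc0 : ∀ (v : ι → A), B.mulVec (comp k A w 0 v) = 0 := by
    intro v
    ext a
    rw [Matrix.mulVec, dotProduct]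
    apply Finset.sum_eq_zero
    intro b _
    by_cases hb : B a b = 0
    · simp [hb]
    · rw [comp_apply, if_neg, mul_zero]
      rw [hB a b hb]
      omega
  have hBk : ∀ (v : ι → A) (p : ℕ), B.mulVec v = 0 → B.mulVec (comp k A w p v) = 0 := by
    intro v p h
    rcases p with _ | p
    · exact hBc0 v
    · ext a
      rw [hBc, h]
      simp
  -- main step
  have step : ∀ p, Module.finrank k
        (LinearMap.ker (lin k (B + S)) ⊓ filt k A w (p + 1) : Submodule k (ι → A)) ≤
        Module.finrank k (LinearMap.ker (lin k B) ⊓ filt k A w (p + 1) : Submodule k (ι → A)) →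
      Module.finrank k
        (LinearMap.ker (lin k (B + S)) ⊓ filt k A w p : Submodule k (ι → A)) ≤
        Module.finrank k (LinearMap.ker (lin k B) ⊓ filt k A w p : Submodule k (ι → A)) := by
    intro p ih
    set K := (LinearMap.ker (lin k (B + S)) ⊓ filt k A w p : Submodule k (ι → A)) with hK
    set L := (LinearMap.ker (lin k B) ⊓ filt k A w p : Submodule k (ι → A)) with hL
    set G : Submodule k (ι → A) := Submodule.map (comp k A w p) K with hG
    -- rank nullity for comp on K
    have rn : Module.finrank k K =
        Module.finrank k G +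
        Module.finrank k (LinearMap.ker (lin k (B + S)) ⊓ filt k A w (p + 1) :
          Submodule k (ι → A)) := by
      have h1 := LinearMap.finrank_range_add_finrank_ker ((comp k A w p).domRestrict K)
      have h2 : LinearMap.range ((comp k A w p).domRestrict K) = G := by
        rw [hG, LinearMap.range_domRestrict]
      have h3 : Module.finrank k (LinearMap.ker ((comp k A w p).domRestrict K)) =
          Module.finrank k (LinearMap.ker (lin k (B + S)) ⊓ filt k A w (p + 1) :
          Submodule k (ι → A)) := by
        have : Submodule.map K.subtype (LinearMap.ker ((comp k A w p).domRestrict K)) =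
            (LinearMap.ker (lin k (B + S)) ⊓ filt k A w (p + 1) : Submodule k (ι → A)) := by
          ext v
          constructor
          · rintro ⟨⟨v, hv⟩, h0, rfl⟩
            refine ⟨hv.1, ?_⟩
            intro a ha
            rcases Nat.lt_succ_iff_lt_or_eq.mp ha with h | h
            · exact hv.2 a h
            · have h0' : comp k A w p v = 0 := h0
              have := congrFun h0' a
              rw [comp_apply, if_pos h] at this
              exact this
          · rintro ⟨hv1, hv2⟩
            have hv2' : ∀ a, w a < p + 1 → v a = 0 := hv2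
            refine ⟨⟨v, ⟨hv1, fun a ha => hv2' a (by omega)⟩⟩, ?_, rfl⟩
            show comp k A w p v = 0
            ext a
            rw [comp_apply]
            split_ifs with h
            · exact hv2' a (by omega)
            · rfl
        rw [← this]
        exact (LinearEquiv.finrank_eq (Submodule.equivMapOfInjective _
          (Submodule.injective_subtype K) _))
      rw [h2, h3] at h1
      exact h1.symm
    -- G is in the kernel of B and in degree p
    have hGL : G ≤ L := by
      rintro _ ⟨v, hv, rfl⟩
      have hv1 : (B + S).mulVec v = 0 := hv.1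
      have hv2 : ∀ a, w a < p → v a = 0 := hv.2
      refine ⟨?_, ?_⟩
      · show B.mulVec (comp k A w p v) = 0
        rcases p with _ | p
        · exact hBc0 v
        · ext a
          rw [hBc]
          split_ifs with h
          · have h1 := congrFun hv1 a
            rw [Matrix.add_mulVec, Pi.add_apply] at h1
            have h2 : S.mulVec v a = 0 := by
              rw [Matrix.mulVec, dotProduct]
              apply Finset.sum_eq_zero
              intro b _
              by_cases hb : S a b = 0
              · simp [hb]
              · rw [hv2 b (by rw [hS a b hb]; omega), mul_zero]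
            rw [h2, add_zero] at h1
            exact h1
          · rfl
      · intro a ha
        rw [comp_apply, if_neg (by omega)]
    have hGd : G ⊓ (LinearMap.ker (lin k B) ⊓ filt k A w (p + 1)) = ⊥ := by
      rw [eq_bot_iff]
      rintro v ⟨hv1, hv2⟩
      obtain ⟨u, _, rfl⟩ := hv1
      have h2 : ∀ a, w a < p + 1 → comp k A w p u a = 0 := hv2.2
      rw [Submodule.mem_bot]
      ext a
      by_cases h : w a = p
      · exact h2 a (by omega)
      · rw [comp_apply, if_neg h]
        rfl
    have hle : G ⊔ (LinearMap.ker (lin k B) ⊓ filt k A w (p + 1)) ≤ L := by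
      refine sup_le hGL ?_
      rintro v ⟨hv1, hv2⟩
      have hv2' : ∀ a, w a < p + 1 → v a = 0 := hv2
      exact ⟨hv1, fun a ha => hv2' a (by omega)⟩
    have hdim := Submodule.finrank_sup_add_finrank_inf_eq G
      (LinearMap.ker (lin k B) ⊓ filt k A w (p + 1))
    rw [hGd, finrank_bot, add_zero] at hdim
    have := Submodule.finrank_mono hle
    omega
  -- downward induction
  obtain ⟨N, hN⟩ : ∃ N, ∀ a, w a < N := by
    refine ⟨Finset.univ.sup w + 1, fun a => ?_⟩
    exact Nat.lt_succ_of_le (Finset.le_sup (Finset.mem_univ a))
  have all : ∀ q, q ≤ N → Module.finrank k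
        (LinearMap.ker (lin k (B + S)) ⊓ filt k A w (N - q) : Submodule k (ι → A)) ≤
        Module.finrank k (LinearMap.ker (lin k B) ⊓ filt k A w (N - q) : Submodule k (ι → A)) := by
    intro q
    induction q with
    | zero =>
      intro _
      have : filt k A w (N - 0) = ⊥ := by
        rw [eq_bot_iff]
        intro v hv
        have hv' : ∀ a, w a < N - 0 → v a = 0 := hv
        rw [Submodule.mem_bot]
        ext a
        exact hv' a (by simpa using hN a)
      rw [this, inf_bot_eq, inf_bot_eq]
    | succ q ih =>
      intro hq
      have e : N - q = N - (q + 1) + 1 := by omega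
      apply step
      rw [← e]
      exact ih (by omega)
  have fin := all N le_rfl
  have htop : filt k A w (N - N) = ⊤ := by
    rw [eq_top_iff]
    intro v _ a ha
    omega
  rw [htop, inf_top_eq, inf_top_eq] at fin
  exact fin

end Semi

end Pool.Agent.TH45.Carlsson
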